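import Pool.Agent.Helper144.TD.Unsplit

set_option autoImplicit false

/-!
Families of sets of natural numbers which are not split, and maximal independent families.
-/

namespace Pool.Agent.Helper144.Unsplit

open Pool.Agent.Helper227 Pool.Agent.H685R3 Pool.Agent.W885.TD
open Filter

/-- The (codes of) sets which contain a member of `𝔹` modulo the filter `F`. -/
def Above (F : Filter ℕ) (𝔹 : Set (Set ℕ)) : Set (ℕ → Bool) :=
  {x | ∃ B ∈ 𝔹, ∀ᶠ n in F, n ∈ B → x n = true}

/-- The sets `I k` are finite and pairwise disjoint. -/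
def Blocks (I : ℕ → Set ℕ) : Prop := (∀ k, (I k).Finite) ∧ ∀ i j, i ≠ j → Disjoint (I i) (I j)

variable {F : Filter ℕ}

theorem above_mono (hF : F ≤ cofinite) (𝔹 : Set (Set ℕ)) (a b : ℕ → Bool) (ha : a ∈ Above F 𝔹)
    (hab : {n | a n = true ∧ b n = false}.Finite) : b ∈ Above F 𝔹 := by
  obtain ⟨B, hB, h⟩ := ha
  have h1 : ∀ᶠ n in F, ¬ (a n = true ∧ b n = false) := hF hab.eventually_cofinite_notMem
  refine ⟨B, hB, ?_⟩
  filter_upwards [h, h1] with n h2 h3 hn
  by_contra hc
  exact h3 ⟨h2 hn, by simpa using hc⟩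

theorem dich_family (hF : F ≤ cofinite) {𝔹 : Set (Set ℕ)}
    (h : Determined (sat (Above F 𝔹) (cc []))) :
    (∃ I : ℕ → Set ℕ, Blocks I ∧ ∀ c : Set ℕ, c.Infinite → ∀ B ∈ 𝔹,
      ∃ᶠ n in F, n ∈ B ∩ ⋃ k ∈ c, I k) ∨
    ∃ I : ℕ → Set ℕ, Blocks I ∧ ∀ c : Set ℕ, c.Infinite → ∃ B ∈ 𝔹,
      ∀ᶠ n in F, n ∈ B → n ∈ ⋃ k ∈ c, I k := by
  rcases dich (above_mono hF 𝔹) h with ⟨I, h1, h2, h3⟩ | ⟨I, h1, h2, h3⟩
  · right
    refine ⟨I, ⟨h1, h2⟩, fun c hc => ?_⟩
    obtain ⟨B, hB, h4⟩ := h3 c hc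
    refine ⟨B, hB, h4.mono fun n h5 h6 => ?_⟩
    simpa only [chi, decide_eq_true_eq] using h5 h6
  · left
    refine ⟨I, ⟨h1, h2⟩, fun c hc B hB => ?_⟩
    by_contra h4
    rw [Filter.not_frequently] at h4
    refine h3 c hc ⟨B, hB, h4.mono fun n h5 h6 => ?_⟩
    simp only [chi, decide_eq_true_eq, Set.mem_compl_iff]
    exact fun h7 => h5 ⟨h6, h7⟩

/-- The branch of `t`. -/
def branch (t : ℕ → Bool) : Set ℕ := Set.range fun n => Encodable.encode (pre t n)

theorem branch_infinite (t : ℕ → Bool) : (branch t).Infinite := by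
  refine Set.infinite_range_of_injective fun m n h => ?_
  have h1 := congrArg List.length (Encodable.encode_injective h)
  simpa using h1

theorem branch_inter {t u : ℕ → Bool} (h : t ≠ u) : (branch t ∩ branch u).Finite := by
  obtain ⟨i, hi⟩ : ∃ i, t i ≠ u i := by
    by_contra hc
    push Not at hc
    exact h (funext hc)
  refine ((Set.finite_Iic i).image fun n => Encodable.encode (pre t n)).subset ?_
  rintro _ ⟨⟨m, rfl⟩, ⟨n, hn⟩⟩
  refine ⟨m, ?_, rfl⟩
  by_contra hc
  have hm : i < m := by simpa using hc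
  have h1 : pre u n = pre t m := Encodable.encode_injective hn
  have h2 : n = m := by simpa using congrArg List.length h1
  subst h2
  have h3 : (pre u n)[i]'(by simpa using hm) = (pre t n)[i]'(by simpa using hm) := by
    simp only [h1]
  rw [getElem_pre, getElem_pre] at h3
  exact hi h3.symm

/-- Families without a perfect antichain. -/
theorem split_of_no_antichain (hF : F ≤ cofinite) {𝔹 : Set (Set ℕ)}
    (hc : ∀ b : (ℕ → Bool) → Set ℕ, (∀ t, b t ∈ 𝔹) →
      ∃ t u, t ≠ u ∧ ∃ᶠ n in F, n ∈ b t ∩ b u)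
    (h : Determined (sat (Above F 𝔹) (cc []))) :
    ∃ I : ℕ → Set ℕ, Blocks I ∧ ∀ c : Set ℕ, c.Infinite → ∀ B ∈ 𝔹,
      ∃ᶠ n in F, n ∈ B ∩ ⋃ k ∈ c, I k := by
  rcases dich_family hF h with h | ⟨I, ⟨h1, h2⟩, h3⟩
  · exact h
  · exfalso
    choose b hb hb' using fun t => h3 (branch t) (branch_infinite t)
    obtain ⟨t, u, htu, h4⟩ := hc b hb
    refine h4 ?_
    have h5 : (⋃ k ∈ branch t ∩ branch u, I k).Finite :=
      (branch_inter htu).biUnion fun k _ => h1 k
    have h6 : ∀ᶠ n in F, n ∉ ⋃ k ∈ branch t ∩ branch u, I k := hF h5.eventually_cofinite_notMem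
    filter_upwards [h6, hb' t, hb' u] with n hn ht hu hn'
    have h7 := ht hn'.1
    have h8 := hu hn'.2
    refine hn ?_
    simp only [Set.mem_iUnion, exists_prop] at h7 h8 ⊢
    obtain ⟨k, hk, hkn⟩ := h7
    obtain ⟨l, hl, hln⟩ := h8
    have : k = l := by
      by_contra hkl
      exact Set.disjoint_left.1 (h2 k l hkl) hkn hln
    subst this
    exact ⟨k, ⟨hk, hl⟩, hkn⟩

/-- There is no uncountable family of pairwise incompatible finite partial functions. -/
theorem countable_of_incompatible {ι α K : Type*} [Countable K] (s : ι → Finset α)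
    (v : ι → α → K) (T : Set ι)
    (h : ∀ i ∈ T, ∀ j ∈ T, i ≠ j → ∃ a ∈ s i, a ∈ s j ∧ v i a ≠ v j a) : T.Countable := by
  classical
  have key : ∀ (n : ℕ) (s : ι → Finset α) (T : Set ι), (∀ i ∈ T, (s i).card ≤ n) →
      (∀ i ∈ T, ∀ j ∈ T, i ≠ j → ∃ a ∈ s i, a ∈ s j ∧ v i a ≠ v j a) → T.Countable := by
    intro n
    induction n with
    | zero =>
      intro s T hs hT
      refine Set.Subsingleton.countable fun i hi j hj => ?_
      by_contra hij
      obtain ⟨a, ha, _⟩ := hT i hi j hj hij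
      have h1 := Finset.card_eq_zero.1 (Nat.le_zero.1 (hs i hi))
      rw [h1] at ha
      simp at ha
    | succ n ih =>
      intro s T hs hT
      rcases T.eq_empty_or_nonempty with rfl | ⟨i₀, hi₀⟩
      · exact Set.countable_empty
      have h1 : T ⊆ {i₀} ∪ ⋃ a ∈ (s i₀ : Set α), ⋃ w : K, {i ∈ T | a ∈ s i ∧ v i a = w} := by
        intro i hi
        by_cases hii : i = i₀
        · exact Or.inl hii
        · obtain ⟨a, ha, ha', _⟩ := hT i hi i₀ hi₀ hii
          right
          simp only [Set.mem_iUnion, exists_prop]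
          exact ⟨a, ha', v i a, hi, ha, rfl⟩
      refine Set.Countable.mono h1 ((Set.countable_singleton _).union ?_)
      refine (Finset.countable_toSet _).biUnion fun a _ => Set.countable_iUnion fun w => ?_
      refine ih (fun i => (s i).erase a) _ ?_ ?_
      · rintro i ⟨hi, hai, _⟩
        have h2 := hs i hi
        have h3 := Finset.card_erase_of_mem hai
        have h4 := Finset.card_pos.2 ⟨a, hai⟩
        change ((s i).erase a).card ≤ n
        omega
      · rintro i ⟨hi, hai, hvi⟩ j ⟨hj, haj, hvj⟩ hij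
        obtain ⟨b, hb, hb', hb''⟩ := hT i hi j hj hij
        have hba : b ≠ a := by
          rintro rfl
          exact hb'' (hvi.trans hvj.symm)
        exact ⟨b, Finset.mem_erase.2 ⟨hba, hb⟩, Finset.mem_erase.2 ⟨hba, hb'⟩, hb''⟩
  have h1 : T = ⋃ n : ℕ, {i ∈ T | (s i).card ≤ n} := by
    ext i
    simp only [Set.mem_iUnion, Set.mem_ofPred_eq]
    exact ⟨fun hi => ⟨_, hi, le_rfl⟩, fun ⟨_, hi, _⟩ => hi⟩
  rw [h1]
  refine Set.countable_iUnion fun n => key n s _ (fun i hi => hi.2) ?_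
  intro i hi j hj hij
  exact h i hi.1 j hj.1 hij

/-- A set of functions from the natural numbers to `K` is independent modulo the filter `F` if
every finite system of equations `f n = v f` (one for each `f` in a finite subset `s`) is solved by
`F`-positively many `n`. -/
def Independent {K : Type*} (F : Filter ℕ) (𝓕 : Set (ℕ → K)) : Prop :=
  ∀ (s : Finset (ℕ → K)) (v : (ℕ → K) → K), (s : Set (ℕ → K)) ⊆ 𝓕 →
    ∃ᶠ n in F, ∀ f ∈ s, f n = v f

/-- The solution sets of the finite systems of equations `f n = v f` with `f` in `𝓕`. -/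
def Cells {K : Type*} (𝓕 : Set (ℕ → K)) : Set (Set ℕ) :=
  {B | ∃ (s : Finset (ℕ → K)) (v : (ℕ → K) → K), (s : Set (ℕ → K)) ⊆ 𝓕 ∧
    B = {n | ∀ f ∈ s, f n = v f}}

theorem cells_antichain {K : Type*} [Countable K] {𝓕 : Set (ℕ → K)} (h𝓕 : Independent F 𝓕)
    (b : (ℕ → Bool) → Set ℕ) (hb : ∀ t, b t ∈ Cells 𝓕) :
    ∃ t u, t ≠ u ∧ ∃ᶠ n in F, n ∈ b t ∩ b u := by
  classical
  by_contra hc
  push Not at hc
  choose s v h1 h2 using hb
  have h3 : (Set.univ : Set (ℕ → Bool)).Countable := by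
    refine countable_of_incompatible s v _ fun t _ u _ htu => ?_
    by_contra h4
    push Not at h4
    have h5 := h𝓕 (s t ∪ s u) (fun f => if f ∈ s t then v t f else v u f) (by
      rw [Finset.coe_union]
      exact Set.union_subset (h1 t) (h1 u))
    refine h5 ((hc t u htu).mono fun n hn hn' => hn ?_)
    rw [h2 t, h2 u]
    refine ⟨fun f hf => ?_, fun f hf => ?_⟩
    · have := hn' f (Finset.mem_union_left _ hf)
      simpa [hf] using this
    · have := hn' f (Finset.mem_union_right _ hf)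
      by_cases hft : f ∈ s t
      · rw [← h4 f hft hf]
        simpa [hft] using this
      · simpa [hft] using this
  have h4 : Countable (ℕ → Bool) := Set.countable_univ_iff.1 h3
  obtain ⟨e, he⟩ := exists_injective_nat (ℕ → Bool)
  refine Function.cantor_injective (fun S : Set ℕ => e (chi S)) (he.comp fun S S' hS => ?_)
  ext n
  have h5 := congrFun hS n
  unfold chi at h5
  exact decide_eq_decide.1 h5

/-- Maximal independent families are not split, so the attached set is not determined. -/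
theorem not_determined_of_maximal (hF : F ≤ cofinite) {K : Type*} [Countable K] [Nontrivial K]
    {𝓕 : Set (ℕ → K)} (h𝓕 : Maximal (Independent F) 𝓕) :
    ¬ Determined (sat (Above F (Cells 𝓕)) (cc [])) := by
  classical
  intro h
  obtain ⟨I, ⟨_, hI⟩, hI'⟩ := split_of_no_antichain hF (cells_antichain h𝓕.1) h
  obtain ⟨ι, hι⟩ := exists_injective_nat K
  obtain ⟨k₀, k₁, hk⟩ := exists_pair_ne K
  -- infinitely many pairwise disjoint infinite unions
  let X : ℕ → Set ℕ := fun i => ⋃ k ∈ {k : ℕ | k.unpair.1 = i}, I k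
  have hX : ∀ i j, i ≠ j → Disjoint (X i) (X j) := by
    intro i j hij
    rw [Set.disjoint_left]
    intro n hn hn'
    simp only [X, Set.mem_iUnion, exists_prop, Set.mem_ofPred_eq] at hn hn'
    obtain ⟨k, hk, hkn⟩ := hn
    obtain ⟨l, hl, hln⟩ := hn'
    have hkl : k ≠ l := by
      rintro rfl
      exact hij (hk.symm.trans hl)
    exact Set.disjoint_left.1 (hI k l hkl) hkn hln
  have hX' : ∀ i, ∀ B ∈ Cells 𝓕, ∃ᶠ n in F, n ∈ B ∩ X i := by
    intro i B hB
    refine hI' _ ?_ B hB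
    refine Set.infinite_of_injective_forall_mem (f := fun n : ℕ => Nat.pair i n) ?_ ?_
    · intro a b hab
      exact (Nat.pair_eq_pair.1 hab).2
    · intro n
      simp
  let g : ℕ → K := fun n => if h : ∃ k, n ∈ X (ι k) then h.choose else k₀
  have hg : ∀ k n, n ∈ X (ι k) → g n = k := by
    intro k n hn
    have h1 : ∃ k, n ∈ X (ι k) := ⟨k, hn⟩
    have h2 : g n = h1.choose := dif_pos h1
    rw [h2]
    by_contra h3
    exact Set.disjoint_left.1 (hX _ _ (hι.ne h3)) h1.choose_spec hn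
  have hind : Independent F (insert g 𝓕) := by
    intro s v hs
    have h1 : {n | ∀ f ∈ s.erase g, f n = v f} ∈ Cells 𝓕 := by
      refine ⟨s.erase g, v, ?_, rfl⟩
      intro f hf
      have hf' := Finset.mem_erase.1 (Finset.mem_coe.1 hf)
      exact (hs (Finset.mem_coe.2 hf'.2)).resolve_left hf'.1
    refine (hX' (ι (v g)) _ h1).mono ?_
    rintro n ⟨h2, h3⟩ f hf
    by_cases hfg : f = g
    · rw [hfg]
      exact hg _ n h3
    · exact h2 f (Finset.mem_erase.2 ⟨hfg, hf⟩)
  have hgF : g ∈ 𝓕 := by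
    have := h𝓕.2 hind (Set.subset_insert g 𝓕)
    exact this (Set.mem_insert g 𝓕)
  have h1 : {n | ∀ f ∈ ({g} : Finset (ℕ → K)), f n = k₁} ∈ Cells 𝓕 :=
    ⟨{g}, fun _ => k₁, by simpa using hgF, rfl⟩
  obtain ⟨n, h2, h3⟩ := (hX' (ι k₀) _ h1).exists
  have h4 := h2 g (by simp)
  rw [hg k₀ n h3] at h4
  exact hk h4

end Pool.Agent.Helper144.Unsplit
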