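import Pool.Agent.W885.TD.Main

set_option autoImplicit false

/-!
Upward closed sets of reals which are closed under finite changes: the determinacy of one Turing
invariant set gives a sequence of disjoint finite sets all of whose infinite unions are in the set,
or a sequence of disjoint finite sets such that the complements of all infinite unions are outside.
-/

namespace Pool.Agent.Helper144.Unsplit

open Pool.Agent.Helper227 Pool.Agent.H685R3 Pool.Agent.W885.TD
open Filter

/-- Selecting a homogeneous column and a homogeneous sequence of blocks. -/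
theorem select (Q : ℕ → Set ℕ → Prop)
    (her : ∀ n c c', (c' \ c).Finite → Q n c → Q n c')
    (h : ∀ c : Set ℕ, c.Infinite → ∃ n, ¬ Q n c) :
    ∃ n, ∃ d : Set ℕ, d.Infinite ∧ ∀ c ⊆ d, c.Infinite → ¬ Q n c := by
  by_contra hc
  push Not at hc
  let St := {d : Set ℕ // d.Infinite}
  have step : ∀ (n : ℕ) (d : St), ∃ c : St, c.1 ⊆ d.1 ∧ Q n c.1 := by
    rintro n ⟨d, hd⟩
    obtain ⟨c, h1, h2, h3⟩ := hc n d hd
    exact ⟨⟨c, h2⟩, h1, h3⟩
  choose nx h1 h2 using step
  let st : ℕ → St := fun n => Nat.rec ⟨Set.univ, Set.infinite_univ⟩ (fun n d => nx n d) n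
  have hsub : ∀ {i j : ℕ}, i ≤ j → (st j).1 ⊆ (st i).1 := by
    intro i j hij
    induction j, hij using Nat.le_induction with
    | base => exact subset_rfl
    | succ j _ ih => exact (h1 j (st j)).trans ih
  have ex : ∀ n b, ∃ x ∈ (st (n + 1)).1, b < x := fun n b => (st (n + 1)).2.exists_gt b
  choose pick hp hp' using ex
  let x : ℕ → ℕ := fun n => Nat.rec (pick 0 0) (fun n y => pick (n + 1) y) n
  have hx : StrictMono x := strictMono_nat_of_lt_succ fun n => hp' (n + 1) (x n)
  have hxm : ∀ n, x n ∈ (st (n + 1)).1 := by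
    intro n
    cases n with
    | zero => exact hp 0 0
    | succ n => exact hp (n + 1) (x n)
  obtain ⟨n, hn⟩ := h (Set.range x) (Set.infinite_range_of_injective hx.injective)
  refine hn (her n (st (n + 1)).1 _ ?_ (h2 n (st n)))
  refine ((Set.finite_Iio n).image x).subset ?_
  rintro _ ⟨⟨k, rfl⟩, hk⟩
  by_contra hc'
  have h3 : n ≤ k := by
    by_contra h4
    exact hc' ⟨k, by simpa using h4, rfl⟩
  exact hk (hsub (show n + 1 ≤ k + 1 by omega) (hxm k))

/-- The `n`-th column of the `i`-th block. -/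
def block (s : ℕ → ℕ) (i n : ℕ) : Set ℕ := {m | s (2 * i) ≤ Nat.pair n m ∧ Nat.pair n m < s (2 * i + 2)}

theorem block_finite (s : ℕ → ℕ) (i n : ℕ) : (block s i n).Finite :=
  (Set.finite_Iio (s (2 * i + 2))).subset fun m hm => lt_of_le_of_lt (Nat.right_le_pair n m) hm.2

theorem block_disjoint {s : ℕ → ℕ} (hs : StrictMono s) (n : ℕ) {i j : ℕ} (hij : i ≠ j) :
    Disjoint (block s i n) (block s j n) := by
  rw [Set.disjoint_left]
  rintro m ⟨h1, h2⟩ ⟨h3, h4⟩
  rcases lt_or_gt_of_ne hij with h | h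
  · have h5 := hs.monotone (show 2 * i + 2 ≤ 2 * j by omega)
    omega
  · have h5 := hs.monotone (show 2 * j + 2 ≤ 2 * i by omega)
    omega

theorem core {s : ℕ → ℕ} (hs : StrictMono s) (P : Set ℕ → Prop)
    (hP : ∀ A B : Set ℕ, (B \ A).Finite → P B → P A)
    (h : ∀ c : Set ℕ, c.Infinite → ∃ n, P (⋃ i ∈ c, block s i n)) :
    ∃ I : ℕ → Set ℕ, (∀ k, (I k).Finite) ∧ (∀ i j, i ≠ j → Disjoint (I i) (I j)) ∧
      ∀ c : Set ℕ, c.Infinite → P (⋃ k ∈ c, I k) := by
  obtain ⟨n, d, hd, h1⟩ := select (fun n c => ¬ P (⋃ i ∈ c, block s i n)) (by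
    intro n c c' hf hn hn'
    refine hn (hP _ _ ?_ hn')
    refine (hf.biUnion fun i _ => block_finite s i n).subset ?_
    rintro m ⟨h1, h2⟩
    simp only [Set.mem_iUnion, exists_prop] at h1 h2 ⊢
    obtain ⟨i, hi, him⟩ := h1
    exact ⟨i, ⟨hi, fun hi' => h2 ⟨i, hi', him⟩⟩, him⟩) (by
    intro c hc
    obtain ⟨n, hn⟩ := h c hc
    exact ⟨n, not_not.2 hn⟩)
  have he : StrictMono (Nat.nth (· ∈ d)) := Nat.nth_strictMono hd
  refine ⟨fun k => block s (Nat.nth (· ∈ d) k) n, fun k => block_finite _ _ _,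
    fun i j hij => block_disjoint hs n (he.injective.ne hij), fun c hc => ?_⟩
  have h2 := not_not.1 (h1 (Nat.nth (· ∈ d) '' c) (by
    rintro _ ⟨k, _, rfl⟩
    exact Nat.nth_mem_of_infinite hd k) (hc.image he.injective.injOn))
  have h3 : (⋃ k ∈ c, block s (Nat.nth (· ∈ d) k) n) =
      ⋃ i ∈ Nat.nth (· ∈ d) '' c, block s i n := by
    simp
  rw [h3]
  exact h2

open Classical in
/-- The characteristic function. -/
noncomputable def chi (S : Set ℕ) (n : ℕ) : Bool := decide (n ∈ S)

theorem glue_nil (f : ℕ → Bool) : glue [] f = f := by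
  funext m
  simp [glue]

theorem dich {V : Set (ℕ → Bool)}
    (hV : ∀ a b : ℕ → Bool, a ∈ V → {n | a n = true ∧ b n = false}.Finite → b ∈ V)
    (h : Determined (sat V (cc []))) :
    (∃ I : ℕ → Set ℕ, (∀ k, (I k).Finite) ∧ (∀ i j, i ≠ j → Disjoint (I i) (I j)) ∧
      ∀ c : Set ℕ, c.Infinite → chi (⋃ k ∈ c, I k) ∈ V) ∨
    ∃ I : ℕ → Set ℕ, (∀ k, (I k).Finite) ∧ (∀ i j, i ≠ j → Disjoint (I i) (I j)) ∧
      ∀ c : Set ℕ, c.Infinite → chi (⋃ k ∈ c, I k)ᶜ ∉ V := by
  have hV' : ∀ a b : ℕ → Bool, a ∈ V → (∀ n, a n = true → b n = true) → b ∈ V := by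
    intro a b ha hab
    refine hV a b ha ?_
    refine Set.finite_empty.subset ?_
    rintro n ⟨h1, h2⟩
    rw [hab n h1] at h2
    cases h2
  rcases h with h1 | h1
  · left
    obtain ⟨z, hz⟩ := cone_of_wins (b := 0) (by omega) (sat_invariant V (cc [])) h1
    obtain ⟨s, hs, h2⟩ := case_one hV' hz
    refine core hs (fun A => chi A ∈ V) ?_ ?_
    · intro A B hAB hB
      refine hV _ _ hB (hAB.subset ?_)
      rintro n ⟨h3, h4⟩
      simp only [chi, decide_eq_true_eq, decide_eq_false_iff_not] at h3 h4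
      exact ⟨h3, h4⟩
    · intro c hc
      obtain ⟨n, hn⟩ := (h2 (chi {t | ∃ i ∈ c, s (2 * i) ≤ t ∧ t < s (2 * i + 2)})
        (Nat.nth (· ∈ c)) (Nat.nth_strictMono hc) (by
          intro i m hm
          simp only [chi, decide_eq_true_eq, Set.mem_ofPred_eq]
          exact ⟨_, Nat.nth_mem_of_infinite hc i, hm.1, hm.2⟩)).exists
      refine ⟨n, ?_⟩
      rw [glue_nil] at hn
      convert hn using 1
      funext m
      unfold chi
      rw [decide_eq_decide, Set.mem_iUnion₂]
      simp only [block, exists_prop, Set.mem_ofPred_eq]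
  · right
    obtain ⟨z, hz⟩ := cone_of_wins (b := 1) (by omega)
      (compl_invariant (sat_invariant V (cc []))) h1
    obtain ⟨s, hs, h2⟩ := case_two hV' (σ := []) (z := z) hz
    refine core hs (fun A => chi Aᶜ ∉ V) ?_ ?_
    · intro A B hAB hB hA
      refine hB (hV _ _ hA (hAB.subset ?_))
      rintro n ⟨h3, h4⟩
      simp only [chi, decide_eq_true_eq, decide_eq_false_iff_not, Set.mem_compl_iff,
        not_not] at h3 h4
      exact ⟨h4, h3⟩
    · intro c hc
      have h3 := h2 (chi {t | ∃ i ∈ c, s (2 * i) ≤ t ∧ t < s (2 * i + 2)}ᶜ)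
        (Nat.nth (· ∈ c)) (Nat.nth_strictMono hc) (by
          intro i m hm
          simp only [chi, decide_eq_false_iff_not, Set.mem_compl_iff, not_not, Set.mem_ofPred_eq]
          exact ⟨_, Nat.nth_mem_of_infinite hc i, hm.1, hm.2⟩)
      by_contra hc'
      push Not at hc'
      refine h3 (Frequently.of_forall fun n => ?_)
      rw [glue_nil]
      convert hc' n using 1
      funext m
      simp [chi, block]

end Pool.Agent.Helper144.Unsplit
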